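import Pool.Agent.W785.EN.All

/-!
# A curve of an elastic flow of planar networks can disappear

A straight segment from a fixed point `P` to a junction `A` of order three pulls a drop-shaped loop
with both ends at `A`. The loop is a travelling wave: it moves with constant velocity towards `P`
without changing its shape, and the length of the segment is `c (T - t)`. All conditions are the
natural ones. The shape of the drop is a solution of a third order equation for the angle of the
tangent, found by a shooting argument (the weight of the loop is the shooting parameter); the weight
of the segment is `2 c ∫ cos² φ ds`, the dissipation of the moving loop divided by its speed.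
-/

set_option autoImplicit false

open Set Filter Topology

namespace Pool.Agent.Results.MP_03af62_an.VanishingSegment

open Pool.Agent.W785.EN (NetType Kind IsElasticFlow length)

/-- For every `T > 0` there are a combinatorial type of networks with natural conditions everywhere,
positive weights and a smooth solution on `[0, T)` of the elastic flow such that the length of one
of the curves is `c (T - t)`, `c > 0`; in particular it tends to zero as `t → T`. The solution is
maximal: a solution on a longer interval of time never has the same length of this curve for all
`t < T`. -/
theorem result (T : ℝ) (hT : 0 < T) :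
    ∃ (N M : ℕ) (G : NetType N M) (μ : Fin N → ℝ) (γ : Fin N → ℝ → ℝ → ℂ) (i : Fin N),
      (∀ v, G.kind v ≠ Kind.clamped) ∧ (∀ j, 0 < μ j) ∧ IsElasticFlow G μ T γ ∧
      (∃ c > 0, ∀ t ∈ Ico 0 T, length (γ i t) = c * (T - t)) ∧
      Tendsto (fun t => length (γ i t)) (𝓝[<] T) (𝓝 0) ∧
      ∀ T' > T, ∀ γ' : Fin N → ℝ → ℝ → ℂ, IsElasticFlow G μ T' γ' →
        ¬ ∀ t ∈ Ico 0 T, length (γ' i t) = length (γ i t) :=
  Pool.Agent.W785.EN.main T hT

end Pool.Agent.Results.MP_03af62_an.VanishingSegment
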